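import Pool.Agent.Helper38.UN.St

/-!
Project UN, module CHP: the pure charts.
-/

set_option autoImplicit false

open Set Filter Topology Matrix
open scoped ContDiff ComplexConjugate

noncomputable section

namespace Pool.Agent.Helper84.UN38

open Pool.Agent.Helper71.UN Pool.Agent.Helper38.UN

variable {κ J : Type} {n : ℕ}

private theorem closed_bad [Fintype κ] [Fintype J] (N : Nw κ J n) (r ε : ℝ) :
    IsClosed (Bad N r ε) := by
  have h : Bad N r ε = (⋃ c : κ, ⋃ a : Fin n, {x : ℂ | ‖x - N.pos c a‖ ≤ r / 2}) ∪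
      ⋃ j : J, ⋃ b : Bool, {x : ℂ | |hh (N.d j) (x - N.sp j b)| ≤ ε ∧
        0 ≤ tt (N.d j) (x - N.sp j b) ∧ tt (N.d j) (x - N.sp j b) ≤ ‖N.d j‖} := by
    ext x
    simp only [Bad, Set.mem_setOf_eq, Set.mem_union, Set.mem_iUnion]
  rw [h]
  refine IsClosed.union ?_ ?_
  · refine isClosed_iUnion_of_finite (fun c => isClosed_iUnion_of_finite (fun a => ?_))
    exact isClosed_le (by fun_prop) continuous_const
  · refine isClosed_iUnion_of_finite (fun j => isClosed_iUnion_of_finite (fun b => ?_))
    have h1 : Continuous (fun x : ℂ => hh (N.d j) (x - N.sp j b)) :=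
      (continuous_hh (N.d j)).comp (continuous_id.sub continuous_const)
    have h2 : Continuous (fun x : ℂ => tt (N.d j) (x - N.sp j b)) :=
      (continuous_tt (N.d j)).comp (continuous_id.sub continuous_const)
    exact (isClosed_le h1.abs continuous_const).inter
      ((isClosed_le continuous_const h2).inter (isClosed_le h2 continuous_const))

theorem hCHP : StCHP := by
  intro κ J _ _ n N Γ S r₁ r₂ r ε hN hε hΓ m hm
  refine
    { opn := ?_
      inj := ?_
      smooth := ?_
      symm := ?_
      idem := ?_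
      zero := ?_
      sum := ?_
      loc := ?_ }
  · change IsOpen {x : ℂ | N.lam x = m ∧ x ∉ Bad N r ε}
    rw [isOpen_iff_mem_nhds]
    rintro x ⟨hx, hB⟩
    have h1 : (Bad N r ε)ᶜ ∈ 𝓝 x := (closed_bad N r ε).isOpen_compl.mem_nhds hB
    have h2 : ∀ᶠ y in 𝓝 x, N.lam y = N.lam x := by
      apply hN.off
      intro j b hxw
      apply hB
      refine Or.inr ⟨j, b, ?_⟩
      rw [segment_eq_image'] at hxw
      obtain ⟨t, ⟨ht0, ht1⟩, rfl⟩ := hxw
      have h3 : N.sp j b + t • (N.sp j b + N.d j - N.sp j b) - N.sp j b = (t : ℂ) * N.d j := by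
        rw [add_sub_cancel_left, add_sub_cancel_left, Complex.real_smul]
      have h4 : 0 ≤ ‖N.d j‖ := norm_nonneg _
      dsimp only
      rw [h3, hh_mul_self, tt_mul_self, abs_zero]
      exact ⟨hε, mul_nonneg ht0 h4, by nlinarith⟩
    filter_upwards [h1, h2] with y hy1 hy2
    exact ⟨hy2.trans hx, hy1⟩
  · intro a b _
    exact Subsingleton.elim (α := Fin 1) a b
  · intro l a b z _
    exact contDiffAt_const
  · intro l z _
    ext a b
    rfl
  · intro l z _
    change (Matrix.of fun (_ _ : Fin 1) => if l = m then (1 : ℝ) else 0) *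
      (Matrix.of fun (_ _ : Fin 1) => if l = m then (1 : ℝ) else 0) =
      Matrix.of fun (_ _ : Fin 1) => if l = m then (1 : ℝ) else 0
    ext a b
    rw [Matrix.mul_apply]
    simp only [Matrix.of_apply, Fin.sum_univ_one]
    split_ifs <;> simp
  · intro l hl z _
    change (Matrix.of fun (_ _ : Fin 1) => if l = m then (1 : ℝ) else 0) = 0
    ext a b
    simp only [Matrix.of_apply, Matrix.zero_apply]
    rw [if_neg]
    rintro rfl
    exact hl hm
  · intro z _
    change ∑ l ∈ S, (Matrix.of fun (_ _ : Fin 1) => if l = m then (1 : ℝ) else 0) = 1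
    ext a b
    rw [Matrix.sum_apply]
    simp only [Matrix.of_apply]
    rw [Finset.sum_ite_eq' S m, if_pos hm, Subsingleton.elim a b, Matrix.one_apply_eq]
  · intro l z _ a b _
    change Γ l ((0 : ℂ) - 0)
    rw [sub_zero]
    exact hΓ l

end Pool.Agent.Helper84.UN38
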